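import Mathlib

open Set Filter Topology

namespace Pool.Agent.Results.MP_4aa5c9_gt.Plastic

/-- every nonempty open set contains an uncountable compact set -/
def KCrowded (Z : Type*) [TopologicalSpace Z] : Prop :=
  ∀ U : Set Z, IsOpen U → U.Nonempty → ∃ K ⊆ U, IsCompact K ∧ ¬ K.Countable

/-- every non-expansive bijection is an isometry -/
def IsPlastic (Z : Type*) [MetricSpace Z] : Prop :=
  ∀ f : Z → Z, Function.Bijective f → (∀ x y, dist (f x) (f y) ≤ dist x y) →
    ∀ x y, dist (f x) (f y) = dist x y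

abbrev Cn := ℕ → Bool

variable {Y : Type*} [MetricSpace Y]

lemma ucyl {e : Cn → Y} (he : Continuous e) {ε : ℝ} (hε : 0 < ε) :
    ∀ᶠ L in atTop, ∀ x y : Cn, (∀ k < L, x k = y k) → dist (e x) (e y) < ε := by
  suffices h : ∃ L, ∀ x y : Cn, (∀ k < L, x k = y k) → dist (e x) (e y) < ε by
    obtain ⟨L, hL⟩ := h
    filter_upwards [eventually_ge_atTop L] with M hM x y hxy
    exact hL x y fun k hk => hxy k (by omega)
  by_contra h
  push Not at h
  let S : ℕ → Set (Cn × Cn) := fun L =>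
    {p | (∀ k < L, p.1 k = p.2 k) ∧ ε ≤ dist (e p.1) (e p.2)}
  have hc : ∀ L, IsClosed (S L) := fun L => by
    refine IsClosed.inter (s₂ := {p : Cn × Cn | ε ≤ dist (e p.1) (e p.2)})
      (s₁ := {p : Cn × Cn | ∀ k < L, p.1 k = p.2 k}) ?_ (isClosed_le (by fun_prop) (by fun_prop))
    simp only [setOf_forall]
    exact isClosed_iInter fun k => isClosed_iInter fun _ => isClosed_eq (by fun_prop) (by fun_prop)
  obtain ⟨p, hp⟩ := IsCompact.nonempty_iInter_of_sequence_nonempty_isCompact_isClosed S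
    (fun L p hp => ⟨fun k hk => hp.1 k (by omega), hp.2⟩)
    (fun L => by obtain ⟨x, y, h⟩ := h L; exact ⟨(x, y), h⟩) (hc 0).isCompact hc
  rw [mem_iInter] at hp
  have : p.1 = p.2 := funext fun k => (hp (k + 1)).1 k (by omega)
  have h2 := (hp 0).2
  rw [this, dist_self] at h2
  linarith

lemma nbhd {O : Set Cn} (hO : IsOpen O) {x : Cn} (hx : x ∈ O) :
    ∃ L, ∀ y : Cn, (∀ k < L, y k = x k) → y ∈ O := by
  obtain ⟨I, u, h1, h2⟩ := isOpen_pi_iff.1 hO x hx
  refine ⟨I.sup id + 1, fun y hy => h2 fun a ha => ?_⟩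
  have : a ≤ I.sup id := Finset.le_sup (f := id) ha
  rw [hy a (by omega)]
  exact (h1 a ha).2

lemma sep {e : Cn → Y} (he : Function.Injective e) (m : ℕ) : ∃ ε > 0, ∀ y y' : Cn,
    (∀ k, m ≤ k → y k = false) → (∀ k, m ≤ k → y' k = false) → y ≠ y' → ε ≤ dist (e y) (e y') := by
  have hf : {y : Cn | ∀ k, m ≤ k → y k = false}.Finite := by
    refine Set.Finite.of_finite_image (f := fun y (k : Fin m) => y k) (toFinite _) ?_
    intro y hy y' hy' h
    funext k
    by_cases hk : k < m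
    · exact congrFun h ⟨k, hk⟩
    · rw [hy k (by omega), hy' k (by omega)]
  have : ∀ᶠ ε in 𝓝[>] (0 : ℝ), ∀ y ∈ {y : Cn | ∀ k, m ≤ k → y k = false},
      ∀ y' ∈ {y : Cn | ∀ k, m ≤ k → y k = false}, y ≠ y' → ε ≤ dist (e y) (e y') := by
    refine (eventually_all_finite hf).2 fun y _ => (eventually_all_finite hf).2 fun y' _ => ?_
    by_cases h : y = y'
    · simp [h]
    · have : 0 < dist (e y) (e y') := dist_pos.2 (he.ne h)
      filter_upwards [nhdsWithin_le_nhds (Iic_mem_nhds this)] with ε hε _ using hε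
  obtain ⟨ε, h1, h2⟩ := (this.and self_mem_nhdsWithin).exists
  exact ⟨ε, h2, fun y y' hy hy' => h1 y hy y' hy'⟩

lemma levels {e : ℕ → Cn → Y} (hc : ∀ i, Continuous (e i)) (hi : ∀ i, Function.Injective (e i)) :
    ∃ l : ℕ → ℕ, ∀ n, 2 * l n + 1 ≤ l (n + 1) ∧ ∀ i ≤ n, ∀ x x' : Cn,
      (∀ k < l (n + 1), x k = x' k) → ∀ y y' : Cn, (∀ k, 2 * l n + 1 ≤ k → y k = false) →
      (∀ k, 2 * l n + 1 ≤ k → y' k = false) → y ≠ y' →
      dist (e i x) (e i x') < dist (e n.unpair.1 y) (e n.unpair.1 y') := by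
  have : ∀ n a : ℕ, ∃ b, 2 * a + 1 ≤ b ∧ ∀ i ≤ n, ∀ x x' : Cn,
      (∀ k < b, x k = x' k) → ∀ y y' : Cn, (∀ k, 2 * a + 1 ≤ k → y k = false) →
      (∀ k, 2 * a + 1 ≤ k → y' k = false) → y ≠ y' →
      dist (e i x) (e i x') < dist (e n.unpair.1 y) (e n.unpair.1 y') := by
    intro n a
    obtain ⟨ε, hε, h⟩ := sep (hi n.unpair.1) (2 * a + 1)
    have := (eventually_all_finite (finite_Iic n)).2 fun i _ => ucyl (hc i) hε
    obtain ⟨b, hb1, hb2⟩ := ((eventually_ge_atTop (2 * a + 1)).and this).exists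
    exact ⟨b, hb1, fun i hi x x' hx y y' hy hy' hne => (hb2 i hi x x' hx).trans_le (h y y' hy hy' hne)⟩
  choose nx hnx using this
  exact ⟨fun n => Nat.rec 0 nx n, fun n => hnx n _⟩

def CC (l : ℕ → ℕ) (j : ℕ) : Set Cn :=
  {x | ∀ k, x k = true → ∃ n : ℕ, n.unpair.1 = j ∧ l n ≤ k ∧ k < l (n + 1)}

lemma CC_closed (l : ℕ → ℕ) (j : ℕ) : IsClosed (CC l j) := by
  rw [CC, setOf_forall]
  refine isClosed_iInter fun k => ?_
  exact (isClosed_discrete {b : Bool | b = true → ∃ n : ℕ, n.unpair.1 = j ∧ l n ≤ k ∧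
    k < l (n + 1)}).preimage (continuous_apply (A := fun _ : ℕ => Bool) k)

lemma CC_unc {l : ℕ → ℕ} (hl : StrictMono l) (j : ℕ) : ¬ (CC l j).Countable := by
  classical
  intro h
  let g : Set ℕ → Cn := fun s k => decide (∃ m ∈ s, k = l (Nat.pair j m))
  have hg : Function.Injective g := by
    have key : ∀ s t, g s = g t → s ⊆ t := by
      intro s t hst m hm
      have := congrFun hst (l (Nat.pair j m))
      simp only [g, decide_eq_decide] at this
      obtain ⟨m', hm', e⟩ := this.1 ⟨m, hm, rfl⟩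
      have := (Nat.pair_eq_pair.1 (hl.injective e)).2
      rwa [this]
    exact fun s t h => (key s t h).antisymm (key t s h.symm)
  have hm : ∀ s, g s ∈ CC l j := by
    intro s k hk
    simp only [g, decide_eq_true_eq] at hk
    obtain ⟨m, -, rfl⟩ := hk
    exact ⟨Nat.pair j m, by simp, le_rfl, hl (by omega)⟩
  have : (univ : Set (Set ℕ)).Countable := (h.preimage_of_injOn (f := g) hg.injOn).mono
    fun s _ => hm s
  rw [countable_univ_iff] at this
  obtain ⟨φ, hφ⟩ := exists_surjective_nat (Set ℕ)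
  exact Function.cantor_surjective φ hφ

lemma nocover {e : ℕ → Cn → Y} {l : ℕ → ℕ}
    (hl : ∀ n, 2 * l n + 1 ≤ l (n + 1) ∧ ∀ i ≤ n, ∀ x x' : Cn,
      (∀ k < l (n + 1), x k = x' k) → ∀ y y' : Cn, (∀ k, 2 * l n + 1 ≤ k → y k = false) →
      (∀ k, 2 * l n + 1 ≤ k → y' k = false) → y ≠ y' →
      dist (e i x) (e i x') < dist (e n.unpair.1 y) (e n.unpair.1 y'))
    {i j : ℕ} (hij : i ≠ j) {x : Cn} (hx : x ∈ CC l j) {O : Set Cn} (hO : IsOpen O) (hxO : x ∈ O)
    (R : Cn → Cn → Prop) (hR : ∀ y ∈ CC l j, y ∈ O → ∃ z ∈ CC l i, R z y)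
    (hd : ∀ z y z' y', R z y → R z' y' → dist (e j y) (e j y') ≤ dist (e i z) (e i z')) : False := by
  have hs : StrictMono l := strictMono_nat_of_lt_succ fun n => by have := (hl n).1; omega
  obtain ⟨L, hL⟩ := nbhd hO hxO
  set n := Nat.pair j (L + i) with hn
  have hn1 : n.unpair.1 = j := by simp [hn]
  have hn2 : L + i ≤ n := Nat.right_le_pair _ _
  have hn3 : n ≤ l n := hs.le_apply
  obtain ⟨h1, h2⟩ := hl n
  let y : (Fin (l n + 1) → Bool) → Cn := fun σ k =>
    if k < l n then x k else if h : k - l n < l n + 1 then σ ⟨_, h⟩ else false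
  have hy : ∀ σ, y σ ∈ CC l j := by
    intro σ k hk
    simp only [y] at hk
    split_ifs at hk with a b
    · exact hx k hk
    · exact ⟨n, hn1, by omega, by omega⟩
  have hyO : ∀ σ, y σ ∈ O := fun σ => hL _ fun k hk => by simp [y, show k < l n by omega]
  have hy0 : ∀ σ k, 2 * l n + 1 ≤ k → y σ k = false := fun σ k hk => by
    simp only [y]
    rw [if_neg (by omega), dif_neg (by omega)]
  have hyi : Function.Injective y := by
    intro σ τ h
    funext k
    have := congrFun h (l n + k)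
    have hk := k.2
    simp only [y] at this
    rw [if_neg (by omega), dif_pos (by omega), if_neg (by omega), dif_pos (by omega)] at this
    simpa using this
  choose z hz hzR using fun σ => hR _ (hy σ) (hyO σ)
  obtain ⟨σ, τ, hne, heq⟩ := Fintype.exists_ne_map_eq_of_card_lt
    (fun σ (k : Fin (l n)) => z σ k) (by simp [pow_succ])
  have hz0 : ∀ σ k, l n ≤ k → k < l (n + 1) → z σ k = false := by
    intro σ k a b
    by_contra hk
    obtain ⟨m, e1, e2, e3⟩ := hz σ k (by simpa using hk)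
    have : m = n := by
      have u := hs.lt_iff_lt.1 (e2.trans_lt b)
      have v := hs.lt_iff_lt.1 (a.trans_lt e3)
      omega
    exact hij (by rw [← e1, this, hn1])
  have := h2 i (by omega) (z σ) (z τ) (fun k hk => by
    by_cases a : k < l n
    · exact congrFun heq ⟨k, a⟩
    · rw [hz0 σ k (by omega) hk, hz0 τ k (by omega) hk]) (y σ) (y τ) (hy0 σ) (hy0 τ) (hyi.ne hne)
  rw [hn1] at this
  exact absurd (hd _ _ _ _ (hzR σ) (hzR τ)) (not_le.2 this)

lemma expans {Z : Type*} [MetricSpace Z] {g : Z → Z} (hg : ∀ x y, dist x y ≤ dist (g x) (g y))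
    {K : Set Z} (hK : IsCompact K) (hm : MapsTo g K K) {x y : Z} (hx : x ∈ K) (hy : y ∈ K) :
    dist (g x) (g y) ≤ dist x y := by
  have it : ∀ n x y, dist x y ≤ dist (g^[n] x) (g^[n] y) := by
    intro n
    induction n with
    | zero => simp
    | succ n ih => intro x y; exact (hg x y).trans (ih _ _)
  obtain ⟨a, -, φ, hφ, ha⟩ := (hK.prod hK).tendsto_subseq (x := fun n => (g^[n] x, g^[n] y))
    fun n => ⟨hm.iterate n hx, hm.iterate n hy⟩
  refine le_of_forall_pos_le_add fun ε hε => ?_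
  obtain ⟨N, hN⟩ := Metric.cauchySeq_iff'.1 ha.cauchySeq (ε / 2) (by positivity)
  have h := hN (N + 1) (by omega)
  simp only [Function.comp, Prod.dist_eq, max_lt_iff] at h
  obtain ⟨k, hk⟩ := Nat.exists_eq_add_of_lt (hφ (show N < N + 1 by omega))
  rw [hk, add_assoc, Function.iterate_add_apply _ _ _ x, Function.iterate_add_apply _ _ _ y] at h
  have h1 := (it _ _ _).trans_lt h.1
  have h2 := (it _ _ _).trans_lt h.2
  have h3 : dist (g x) (g y) ≤ dist (g^[k + 1] x) (g^[k + 1] y) := it k _ _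
  have h4 := dist_triangle4 (g^[k + 1] x) x y (g^[k + 1] y)
  rw [dist_comm y] at h4
  linarith

theorem result (Y : Type*) [MetricSpace Y] [TopologicalSpace.SeparableSpace Y]
    (hY : KCrowded Y) :
    ∃ X : Set Y, IsPlastic X ∧ Dense X ∧ IsSigmaCompact X ∧ KCrowded X := by
  rcases isEmpty_or_nonempty Y with hE | hne
  · exact ⟨univ, fun f _ _ x => hE.elim x.1, dense_univ, isCompact_univ.isSigmaCompact,
      fun U _ ⟨x, _⟩ => hE.elim x.1⟩
  obtain ⟨b, hb1, hb2, hb3⟩ := TopologicalSpace.exists_countable_basis Y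
  have hbn : b.Nonempty := by
    obtain ⟨x⟩ := hne
    obtain ⟨t, ht, -⟩ := hb3.exists_subset_of_mem_open (mem_univ x) isOpen_univ
    exact ⟨t, ht⟩
  obtain ⟨U, rfl⟩ := hb1.exists_eq_range hbn
  have : ∀ j, ∃ e : Cn → Y, Continuous e ∧ Function.Injective e ∧ ∀ x, e x ∈ U j := by
    intro j
    obtain ⟨K, hKU, hK, hu⟩ := hY (U j) (hb3.isOpen ⟨j, rfl⟩)
      (nonempty_iff_ne_empty.2 fun h => hb2 ⟨j, h⟩)
    haveI := isCompact_iff_compactSpace.1 hK
    obtain ⟨f, -, h1, h2⟩ := (isClosed_univ (X := K)).exists_nat_bool_injection_of_not_countable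
      (fun h => hu (countable_coe_iff.1 (countable_univ_iff.1 h)))
    exact ⟨fun x => f x, by fun_prop, Subtype.val_injective.comp h2, fun x => hKU (f x).2⟩
  choose e hc hi hU using this
  obtain ⟨l, hl⟩ := levels hc hi
  have hs : StrictMono l := strictMono_nat_of_lt_succ fun n => by have := (hl n).1; omega
  let K : ℕ → Set Y := fun j => e j '' CC l j
  have hK : ∀ j, IsCompact (K j) := fun j => (CC_closed l j).isCompact.image (hc j)
  have hKu : ∀ j, ¬ (K j).Countable := fun j h =>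
    CC_unc hs j ((h.preimage_of_injOn (hi j).injOn).mono fun x hx => mem_image_of_mem (e j) hx)
  set X := ⋃ j, K j with hX
  let K' : ℕ → Set X := fun j => Subtype.val ⁻¹' K j
  have hK' : ∀ j, IsCompact (K' j) := fun j => by
    rw [Subtype.isCompact_iff, Subtype.image_preimage_coe,
      inter_eq_right.2 (subset_iUnion K j)]
    exact hK j
  have inO : ∀ O : Set Y, IsOpen O → O.Nonempty → ∃ j, K j ⊆ O := by
    rintro O hO ⟨x, hx⟩
    obtain ⟨_, ⟨j, rfl⟩, -, h⟩ := hb3.exists_subset_of_mem_open hx hO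
    exact ⟨j, by rintro _ ⟨y, -, rfl⟩; exact h (hU j y)⟩
  refine ⟨X, fun f hf hne => ?_, ?_, isSigmaCompact_iUnion_of_isCompact _ hK, ?_⟩
  · have hfc : Continuous f := (LipschitzWith.mk_one hne).continuous
    have cover : ∀ j, K' j ⊆ f '' K' j := by
      intro j
      haveI := isCompact_iff_compactSpace.1 (CC_closed l j).isCompact
      let E : CC l j → X := fun x => ⟨e j x, mem_iUnion.2 ⟨j, x, x.2, rfl⟩⟩
      have hE : Continuous E := ((hc j).comp continuous_subtype_val).subtype_mk _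
      let F : ℕ → Set (CC l j) := fun i => E ⁻¹' (f '' K' i)
      have hF : ∀ i, IsClosed (F i) := fun i => ((hK' i).image hfc).isClosed.preimage hE
      have hd := dense_iUnion_interior_of_closed hF (eq_univ_of_forall fun x => by
        obtain ⟨z, hz⟩ := hf.2 (E x)
        obtain ⟨i, hi⟩ := mem_iUnion.1 z.2
        exact mem_iUnion.2 ⟨i, z, hi, hz⟩)
      rintro ⟨_, hw⟩ ⟨w, hw', rfl⟩
      by_contra hcon
      obtain ⟨x, hx1, hx2⟩ := hd.inter_open_nonempty _ (hF j).isOpen_compl ⟨⟨w, hw'⟩, hcon⟩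
      obtain ⟨i, hxi⟩ := mem_iUnion.1 hx2
      have hij : i ≠ j := by rintro rfl; exact hx1 (interior_subset hxi)
      obtain ⟨O, hO, hOe⟩ := isOpen_induced_iff.1 (isOpen_interior (s := F i))
      refine nocover hl hij x.2 hO (by rw [← hOe] at hxi; exact hxi)
        (fun z y => ∃ h : e i z ∈ X, (f ⟨_, h⟩ : Y) = e j y) ?_ ?_
      · intro y hy hyO
        have : (⟨y, hy⟩ : CC l j) ∈ interior (F i) := by rw [← hOe]; exact hyO
        obtain ⟨⟨_, hz⟩, ⟨z, hz', rfl⟩, h⟩ := interior_subset this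
        exact ⟨z, hz', hz, congrArg Subtype.val h⟩
      · rintro z y z' y' ⟨h, e1⟩ ⟨h', e2⟩
        rw [← e1, ← e2]
        exact hne ⟨_, h⟩ ⟨_, h'⟩
    intro x y
    refine (hne x y).antisymm ?_
    let g := (Equiv.ofBijective f hf).symm
    have hfg : ∀ z, f (g z) = z := (Equiv.ofBijective f hf).apply_symm_apply
    have hgf : ∀ z, g (f z) = z := (Equiv.ofBijective f hf).symm_apply_apply
    have hm : ∀ j, MapsTo g (K' j) (K' j) := fun j z hz => by
      obtain ⟨w, hw, rfl⟩ := cover j hz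
      rwa [hgf]
    obtain ⟨i, hi⟩ := mem_iUnion.1 (f x).2
    obtain ⟨j, hj⟩ := mem_iUnion.1 (f y).2
    have := expans (g := g) (fun a b => by simpa [hfg] using hne (g a) (g b))
      ((hK' i).union (hK' j)) ((hm i).union_union (hm j)) (Or.inl hi) (Or.inr hj)
    rwa [hgf, hgf] at this
  · refine dense_iff_inter_open.2 fun O hO hn => ?_
    obtain ⟨j, hj⟩ := inO O hO hn
    have : e j (fun _ => false) ∈ K j := ⟨_, fun k hk => by simp at hk, rfl⟩
    exact ⟨_, hj this, mem_iUnion.2 ⟨j, this⟩⟩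
  · rintro W hW ⟨x, hx⟩
    obtain ⟨O, hO, rfl⟩ := isOpen_induced_iff.1 hW
    obtain ⟨j, hj⟩ := inO O hO ⟨x, hx⟩
    refine ⟨K' j, fun z hz => hj hz, hK' j, fun h => hKu j ?_⟩
    have := h.image Subtype.val
    rwa [Subtype.image_preimage_coe, inter_eq_right.2 (subset_iUnion K j)] at this

end Pool.Agent.Results.MP_4aa5c9_gt.Plastic
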